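import Pool.Agent.Q66.OsFinal
import Pool.Agent.Q66.OsUnique

/-!
# MP_94eb8e_an: Oseledets integrability fails for a non-periodic measure of the annular billiard

Between the concentric circles of radii `ρ < 1` and `1` the angular momentum `p` is conserved.  For
`0 < p < ρ` the collisions alternate between the two circles and the billiard map rotates by a fixed
angle at each collision; this rotation is irrational for all but countably many `p`.  The norm of the
derivative of the step from the outer to the inner circle is at least
`√(1 - p²) / √(ρ² - p²)`, which tends to infinity as `p → ρ`.  A convex combination of the rotation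
invariant measures of a sequence `p_k → ρ` has a non-integrable `log⁺ ‖DT‖`.

The definitions (tables, billiard map, singular set, coordinates) are in `Pool.Agent.Q66.OsDefs`.
-/

set_option autoImplicit false

namespace Pool.Agent.Results.MP_94eb8e_an.AnnulusTable

open MeasureTheory Q66.Os

/-- For every `ρ ∈ (0, 1)` the concentric annulus `ρ ≤ |z| ≤ 1` is a billiard table without corners
(in particular without cusps) and its billiard map has a non-periodic invariant probability measure
`μ`, carried by points with regular two-sided orbits, for which neither `log⁺ ‖DT‖` nor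
`log⁺ ‖DT⁻¹‖` is integrable. -/
theorem result (ρ : ℝ) (h0 : 0 < ρ) (h1 : ρ < 1) :
    ∃ B : BilliardTable, B.Q = {z : ℂ | ρ ≤ ‖z‖ ∧ ‖z‖ ≤ 1} ∧ B.corners = ∅ ∧ B.NoCusps ∧
      ∃ μ : Measure (ℂ × ℂ), B.IsInvariantMeasure μ ∧ B.NonPeriodic μ ∧
        (∀ᵐ x ∂μ, B.T (B.Tinv x) = x ∧ B.Tinv (B.T x) = x) ∧
        ∫⁻ x, B.logNorm B.T x ∂μ = ⊤ ∧ ∫⁻ x, B.logNorm B.Tinv x ∂μ = ⊤ :=
  main ρ h0 h1

end Pool.Agent.Results.MP_94eb8e_an.AnnulusTable
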